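import Pool.Agent.H28.HG.Final

/-!
# MP_f1f65a_co: Haggkvist's conjecture for all sufficiently large degrees
-/

set_option autoImplicit false

namespace Pool.Agent.Results.MP_f1f65a_co.LargeDegree

/-- There is `k0` such that for every `k ≥ k0` every connected `k`-regular bipartite graph on at
most `6 k` vertices has a Hamilton cycle. -/
theorem result : ∃ k0 : ℕ, ∀ (V : Type) [Fintype V] [DecidableEq V] (G : SimpleGraph V)
    [DecidableRel G.Adj] (k : ℕ), k0 ≤ k → G.Connected → G.IsRegularOfDegree k →
    G.Colorable 2 → Fintype.card V ≤ 6 * k → G.IsHamiltonian :=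
  Pool.Agent.H28.HG.fin

end Pool.Agent.Results.MP_f1f65a_co.LargeDegree
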